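import Pool.Agent.H742.GA.P_RED
import Pool.Agent.H742.GA.P_DEL
import Pool.Agent.H742.GA.P_CAT
import Pool.Agent.H742.GA.P_CANC
import Pool.Agent.H742.GA.P_KILL
import Pool.Agent.H742.GA.P_GSMAIN
import Pool.Agent.H742.GA.P_MEAS
import Pool.Agent.H742.GA.P_HAM
import Pool.Agent.H742.GA.P_LBGS
import Pool.Agent.H742.GA.P_LBHA
import Pool.Agent.H742.GA.P_BOREL

/-!
# MP_3fbd41_lc: the Hawaiian earring group modulo the kernels of the harmonic archipelago and of
the Griffiths space

The fundamental groups of the harmonic archipelago and of the Griffiths space are the quotients of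
the Hawaiian earring group `HEG` by `NHA` and by `NGS`. We prove that the two coset equivalence
relations on `HEG` are Borel bireducible with `E₁`, hence with each other.
-/

set_option autoImplicit false

noncomputable section

namespace Pool.Agent.Results.MP_3fbd41_lc.EarringGroupQuotients

open Pool.Agent.H742.GA

theorem result :
    MeasurableSet (HEG : Set (ℕ → FreeGroup ℕ)) ∧
    BRed EqHA E1 ∧ BRed E1 EqHA ∧ BRed EqGS E1 ∧ BRed E1 EqGS ∧
    BRed EqHA EqGS ∧ BRed EqGS EqHA := by
  have hA := t_AMUL t_DEL (t_CAT t_DEL) (t_INV t_DEL) (t_CANC t_RED)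
  have hG := t_GSMAIN t_RED t_DEL t_PUREDEL (t_PURERED t_RED) (t_KILL t_DEL) hA
  have hH := t_HAMAIN t_QKILL
  have h1 : BRed EqHA E1 := t_UBHA hH t_QMEAS t_CODE
  have h2 : BRed E1 EqHA := t_LBHA hH
  have h3 : BRed EqGS E1 := t_UBGS hG t_MEAS t_CODE
  have h4 : BRed E1 EqGS := t_LBGS t_RED t_DEL hG
  exact ⟨t_BOREL t_RED, h1, h2, h3, h4, t_TRANS _ _ _ h1 h4, t_TRANS _ _ _ h3 h2⟩

end Pool.Agent.Results.MP_3fbd41_lc.EarringGroupQuotients
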